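import Pool.Agent.MP_fcd29e_an.H31.Spec3
import Pool.Agent.MP_fcd29e_an.H81.ORI

/-! A closed homogeneous field of distributions without residue is closed across the origin. -/

set_option autoImplicit false

open MeasureTheory Complex Set Filter Topology Metric Pool.Agent.MP_fcd29e_an.H81
  Pool.Agent.MP_fcd29e_an.H31
open scoped ContDiff ComplexConjugate ENNReal NNReal

namespace Pool.Agent.MP_fcd29e_an.H52

variable {N : ℕ}

theorem scale_d (g : E N → ℂ) (s : ℝ) (j : Fin N) (z : E N) :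
    dz j (fun w => g ((s : ℂ) • w)) z = s * dz j g ((s : ℂ) • z) ∧
      dzb j (fun w => g ((s : ℂ) • w)) z = s * dzb j g ((s : ℂ) • z) := by
  have e : ∀ w : E N, (s : ℂ) • w = s • w := fun w => by ext; simp
  simp only [e, dz, dzb]
  rw [fderiv_comp_smul]
  simp only [smul_apply, real_smul]
  constructor <;> ring

theorem norm_d (g : E N → ℂ) (j : Fin N) (z : E N) :
    ‖dz j g z‖ ≤ ‖fderiv ℝ g z‖ ∧ ‖dzb j g z‖ ≤ ‖fderiv ℝ g z‖ := by
  have a1 := (fderiv ℝ g z).le_opNorm (ee j)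
  have a2 := (fderiv ℝ g z).le_opNorm (I • ee j)
  have a3 : ‖(ee j : E N)‖ = 1 := by simp [ee]
  rw [norm_smul, norm_I, a3] at a2
  rw [a3] at a1
  have a4 := norm_add_le (fderiv ℝ g z (ee j)) (I * fderiv ℝ g z (I • ee j))
  have a5 := norm_sub_le (fderiv ℝ g z (ee j)) (I * fderiv ℝ g z (I • ee j))
  rw [norm_mul, norm_I] at a4 a5
  rw [dz, dzb, norm_div, norm_div, Complex.norm_ofNat]
  constructor <;> linarith

theorem smooth_d {g : E N → ℂ} (hg : ContDiff ℝ ∞ g) (j : Fin N) :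
    ContDiff ℝ ∞ (dz j g) ∧ ContDiff ℝ ∞ (dzb j g) :=
  ⟨contDiff_iff_contDiffAt.2 fun _ => contDiffAt_dz j hg.contDiffAt,
    contDiff_iff_contDiffAt.2 fun _ => contDiffAt_dzb j hg.contDiffAt⟩

/-- Continuous with decay. -/
def Dec (C : ℝ) (φ : E N → ℂ) : Prop :=
  Continuous φ ∧ ∀ y, ‖φ y‖ ≤ C / (1 + ‖y‖) ^ (2 * N - 1)

/-- Integrable and carried by the shell. -/
def Shl (f : E N → ℂ) : Prop := Integrable f ∧ ∀ x, f x ≠ 0 → 1 ≤ ‖x‖ ∧ ‖x‖ ≤ 2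

theorem Dec.nonneg {C : ℝ} {φ : E N → ℂ} (h : Dec C φ) : 0 ≤ C := by
  simpa using (norm_nonneg _).trans (h.2 0)

theorem Dec.le {C : ℝ} {φ : E N → ℂ} (h : Dec C φ) (y : E N) : ‖φ y‖ ≤ C :=
  (h.2 y).trans (div_le_self h.nonneg (one_le_pow₀ (by linarith [norm_nonneg y])))

theorem Dec.int {C : ℝ} {φ g : E N → ℂ} (h : Dec C φ) (L : Lv0) (hg : DI g) :
    Integrable fun z => g z * φ z := by
  refine (hg.norm.const_mul C).mono'
    (((L.t3.2 N).2.2 _ hg).aestronglyMeasurable.mul h.1.aestronglyMeasurable)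
    (Eventually.of_forall fun z => ?_)
  have hp : 0 < (1 + ‖z‖) ^ (2 * N - 1) := by positivity
  rw [norm_mul, norm_div, Complex.norm_real, Real.norm_of_nonneg hp.le]
  calc _ ≤ ‖g z‖ * (C / (1 + ‖z‖) ^ (2 * N - 1)) :=
        mul_le_mul_of_nonneg_left (h.2 z) (norm_nonneg _)
    _ = _ := by ring

theorem Shl.int {C : ℝ} {f φ : E N → ℂ} (hf : Shl f) (h : Dec C φ) (c : ℂ) :
    Integrable fun x => f x * φ (c • x) :=
  hf.1.mul_bdd (c := C) (h.1.comp (continuous_const_smul c)).aestronglyMeasurable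
    (Eventually.of_forall fun _ => h.le _)

theorem Shl.bound {f φ : E N → ℂ} (hf : Shl f) {B : ℝ}
    (hB : ∀ x : E N, 1 ≤ ‖x‖ → ‖x‖ ≤ 2 → ‖φ x‖ ≤ B) :
    ‖∫ x, f x * φ x‖ ≤ B * ∫ x, ‖f x‖ := by
  rw [← integral_const_mul]
  refine norm_integral_le_of_norm_le (hf.1.norm.const_mul B) (Eventually.of_forall fun x => ?_)
  by_cases hx : f x = 0
  · simp [hx]
  · rw [norm_mul, mul_comm]
    exact mul_le_mul_of_nonneg_right (hB x (hf.2 x hx).1 (hf.2 x hx).2) (norm_nonneg _)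

theorem lim0 {u : ℝ → ℂ} (M : ℝ) (h : ∀ r, 1 ≤ r → ‖u r‖ ≤ M * r⁻¹) : Tendsto u atTop (𝓝 0) := by
  have := tendsto_inv_atTop_zero.const_mul M
  rw [mul_zero] at this
  exact squeeze_zero_norm' ((eventually_ge_atTop 1).mono h) this

theorem norm_pw {t : ℝ} (ht : 0 < t) (e : ℤ) (x : ℂ) : ‖(t : ℂ) ^ e * x‖ = t ^ e * ‖x‖ := by
  rw [norm_mul, norm_zpow, Complex.norm_real, Real.norm_of_nonneg ht.le]

theorem Shl.out {C : ℝ} {f φ : E N → ℂ} (hf : Shl f) (h : Dec C φ) (hN : 1 ≤ N) {e : ℤ}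
    (he : e ≤ 2 * N - 2) :
    Tendsto (fun r : ℝ => (r : ℂ) ^ e * ∫ x, f x * φ ((r : ℂ) • x)) atTop (𝓝 0) := by
  refine lim0 (C * ∫ x, ‖f x‖) fun r hr => ?_
  have ht : 0 < r := by positivity
  have hC := h.nonneg
  have hM : 0 ≤ ∫ x, ‖f x‖ := integral_nonneg fun _ => norm_nonneg _
  have a0 := hf.bound (φ := fun x => φ ((r : ℂ) • x)) (B := C / r ^ (2 * N - 1)) fun x hx _ => by
    refine (h.2 _).trans (div_le_div_of_nonneg_left hC (by positivity)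
      (pow_le_pow_left₀ ht.le ?_ _))
    rw [norm_smul, Complex.norm_real, Real.norm_of_nonneg ht.le]
    nlinarith
  have a1 : r ^ e ≤ r ^ (((2 * N - 1 : ℕ) : ℤ) - 1) := zpow_le_zpow_right₀ hr (by omega)
  rw [zpow_sub_one₀ ht.ne' ((2 * N - 1 : ℕ) : ℤ), zpow_natCast] at a1
  rw [norm_pw ht]
  calc _ ≤ r ^ (2 * N - 1) * r⁻¹ * (C / r ^ (2 * N - 1) * ∫ x, ‖f x‖) :=
        mul_le_mul a1 a0 (norm_nonneg _) (by positivity)
    _ = _ := by field_simp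

theorem Shl.in1 {C : ℝ} {f φ : E N → ℂ} (hf : Shl f) (h : Dec C φ) {e : ℤ} (he : 1 ≤ e) :
    Tendsto (fun r : ℝ => ((r⁻¹ : ℝ) : ℂ) ^ e * ∫ x, f x * φ (((r⁻¹ : ℝ) : ℂ) • x)) atTop
      (𝓝 0) := by
  refine lim0 (C * ∫ x, ‖f x‖) fun r hr => ?_
  have ht : 0 < r⁻¹ := by positivity
  have a0 := hf.bound (φ := fun x => φ (((r⁻¹ : ℝ) : ℂ) • x)) fun x _ _ => h.le _
  have a1 : r⁻¹ ^ e ≤ r⁻¹ ^ (1 : ℤ) := zpow_le_zpow_right_of_le_one₀ ht (inv_le_one_of_one_le₀ hr) he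
  rw [zpow_one] at a1
  rw [norm_pw ht, mul_comm]
  exact mul_le_mul a0 a1 (by positivity) ((norm_nonneg _).trans a0)

theorem Shl.in0 {C : ℝ} {f φ : E N → ℂ} (hf : Shl f) (h : Dec C φ) (hd : Differentiable ℝ φ)
    (hd' : ∀ y, ‖fderiv ℝ φ y‖ ≤ C) (h0 : ∫ x, f x = 0) {e : ℤ} (he : 0 ≤ e) :
    Tendsto (fun r : ℝ => ((r⁻¹ : ℝ) : ℂ) ^ e * ∫ x, f x * φ (((r⁻¹ : ℝ) : ℂ) • x)) atTop
      (𝓝 0) := by
  refine lim0 (2 * C * ∫ x, ‖f x‖) fun r hr => ?_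
  have ht : 0 < r⁻¹ := by positivity
  have hC := h.nonneg
  have a0 := hf.bound (φ := fun x => φ (((r⁻¹ : ℝ) : ℂ) • x) - φ 0) (B := C * (2 * r⁻¹))
    fun x _ hx => by
      have := convex_univ.norm_image_sub_le_of_norm_fderiv_le (𝕜 := ℝ) (f := φ) (C := C)
        (fun y _ => hd y) (fun y _ => hd' y) (mem_univ 0) (mem_univ (((r⁻¹ : ℝ) : ℂ) • x))
      rw [sub_zero, norm_smul, Complex.norm_real, Real.norm_of_nonneg ht.le] at this
      exact this.trans (mul_le_mul_of_nonneg_left (by nlinarith) hC)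
  simp only [mul_sub] at a0
  rw [integral_sub (hf.int h _) (hf.1.mul_const _), integral_mul_const, h0, zero_mul,
    sub_zero] at a0
  have a1 : r⁻¹ ^ e ≤ 1 := zpow_le_one₀ ht (inv_le_one_of_one_le₀ hr) he
  rw [norm_pw ht]
  calc _ ≤ 1 * (C * (2 * r⁻¹) * ∫ x, ‖f x‖) := mul_le_mul a1 a0 (norm_nonneg _) zero_le_one
    _ = _ := by ring

theorem lam_eq {Y : Fin N → E N → ℂ} {B : Fin N → Fin N → E N → ℂ} {g : Fin N → E N → ℂ}
    (h1 : ∀ l, Integrable fun z => Y l z * g l z)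
    (h2 : ∀ l i, Integrable fun z => B l i z * dz i (g l) z) :
    (Integrable fun z => ∑ l, Y l z * g l z + ∑ l, ∑ i, B l i z * dz i (g l) z) ∧
    Lam Y B g = ∫ z, (∑ l, Y l z * g l z + ∑ l, ∑ i, B l i z * dz i (g l) z) := by
  have a1 : Integrable fun z => ∑ l, Y l z * g l z := integrable_finsetSum _ fun l _ => h1 l
  have a2 : ∀ l, Integrable fun z => ∑ i, B l i z * dz i (g l) z := fun l =>
    integrable_finsetSum _ fun i _ => h2 l i
  have a3 : Integrable fun z => ∑ l, ∑ i, B l i z * dz i (g l) z :=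
    integrable_finsetSum _ fun l _ => a2 l
  refine ⟨a1.add a3, ?_⟩
  rw [integral_add a1 a3, integral_finsetSum _ fun l _ => h1 l,
    integral_finsetSum _ fun l _ => a2 l, Lam]
  congr 1
  exact Finset.sum_congr rfl fun l _ => (integral_finsetSum _ fun i _ => h2 l i).symm

theorem rad_facts {κ : ℝ → ℝ} (hκ : Kap κ) (l : Fin N) : ContDiff ℝ ∞ (rad κ l) ∧
    (∀ x, rad κ l x ≠ 0 → 1 ≤ ‖x‖ ∧ ‖x‖ ≤ 2) ∧
    ∀ i x, dz i (rad κ l) x ≠ 0 → 1 ≤ ‖x‖ ∧ ‖x‖ ≤ 2 := by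
  have h1 : ∀ x : E N, rad κ l x ≠ 0 → 1 ≤ ‖x‖ ∧ ‖x‖ ≤ 2 := fun x hx => by
    obtain ⟨a1, a2⟩ := hκ.supp (‖x‖ ^ 2) fun h => hx (by simp [rad, h])
    exact ⟨by nlinarith [norm_nonneg x], by nlinarith [norm_nonneg x]⟩
  refine ⟨(ofRealCLM.contDiff.comp (hκ.smooth.comp (contDiff_norm_sq ℝ))).mul (contDiff_coord l),
    h1, fun i x hx => ?_⟩
  by_contra h
  have hcl : IsClosed {z : E N | 1 ≤ ‖z‖ ∧ ‖z‖ ≤ 2} :=
    (isClosed_le continuous_const continuous_norm).inter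
      (isClosed_le continuous_norm continuous_const)
  have h2 : rad κ l =ᶠ[𝓝 x] fun _ => 0 := by
    filter_upwards [hcl.isOpen_compl.mem_nhds h] with y hy
    by_contra h0
    exact hy (h1 y h0)
  exact hx ((dz_congr h2 i).trans (dz_const i 0 x))

theorem shl_mul (L : Lv0) {f w : E N → ℂ} (hf : L2 (E0 N) f) (hw : Continuous w)
    (hs : ∀ x, w x ≠ 0 → 1 ≤ ‖x‖ ∧ ‖x‖ ≤ 2) : Shl fun x => f x * w x := by
  obtain ⟨a1, a2⟩ := shell_test one_pos hs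
  exact ⟨(((L.t1 N (E0 N) isOpen_E0 (by simp)).1 f hf).2.2.1 w hw a1 a2).1,
    fun x hx => hs x (right_ne_zero_of_mul hx)⟩

theorem cut_d {κ K : ℝ → ℝ} (hK : ∀ s, HasDerivAt K (κ s) s) (s : ℝ) (j : Fin N) (z : E N) :
    dz j (fun w : E N => (K (‖(s : ℂ) • w‖ ^ 2) : ℂ)) z = s * conj (rad κ j ((s : ℂ) • z)) ∧
      dzb j (fun w : E N => (K (‖(s : ℂ) • w‖ ^ 2) : ℂ)) z = s * rad κ j ((s : ℂ) • z) := by
  have hn : ∀ y : E N, DifferentiableAt ℝ (fun w : E N => ‖w‖ ^ 2) y := fun y =>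
    (contDiff_norm_sq ℝ (n := 1)).differentiable one_ne_zero y
  obtain ⟨h1, h2⟩ := scale_d (cx fun w : E N => K (‖w‖ ^ 2)) s j z
  rw [dz_comp_real j (hn _) (hK _), dz_normSq] at h1
  rw [dzb_comp_real j (hn _) (hK _), dzb_normSq] at h2
  exact ⟨h1.trans (by simp only [rad, map_mul, conj_ofReal]), h2⟩

theorem prod_d {θ Ψ : E N → ℂ} (hθ : ContDiff ℝ ∞ θ) (hΨ : ContDiff ℝ ∞ Ψ) (l i : Fin N)
    (z : E N) : dzb l (fun w => θ w * Ψ w) z = dzb l θ z * Ψ z + θ z * dzb l Ψ z ∧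
      dz i (dzb l fun w => θ w * Ψ w) z = dz i (dzb l θ) z * Ψ z + dzb l θ z * dz i Ψ z +
        (dz i θ z * dzb l Ψ z + θ z * dz i (dzb l Ψ) z) := by
  have d : ∀ {g : E N → ℂ}, ContDiff ℝ ∞ g → ∀ y, DifferentiableAt ℝ g y := fun hg y =>
    hg.differentiable (by simp) y
  have h1 : dzb l (fun w => θ w * Ψ w) = fun z => dzb l θ z * Ψ z + θ z * dzb l Ψ z :=
    funext fun y => dzb_mul l (d hθ y) (d hΨ y)
  have a1 := d (smooth_d hθ l).2 z
  have a2 := d (smooth_d hΨ l).2 z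
  refine ⟨congrFun h1 z, ?_⟩
  rw [h1, dz_add i (a1.fun_mul (d hΨ z)) ((d hθ z).fun_mul a2), dz_mul i a1 (d hΨ z),
    dz_mul i (d hθ z) a2]

/-- The cut-off at scale `s⁻¹`. -/
noncomputable def kc (K : ℝ → ℝ) (s : ℝ) (w : E N) : ℂ := (K (‖(s : ℂ) • w‖ ^ 2) : ℂ)

/-- The integrand of `Lam`. -/
noncomputable def lin (Y : Fin N → E N → ℂ) (B : Fin N → Fin N → E N → ℂ) (g : Fin N → E N → ℂ)
    (z : E N) : ℂ := ∑ l, Y l z * g l z + ∑ l, ∑ i, B l i z * dz i (g l) z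

/-- The terms with a derivative on the cut-off. -/
noncomputable def rho (Y : Fin N → E N → ℂ) (B : Fin N → Fin N → E N → ℂ) (θ Ψ : E N → ℂ)
    (z : E N) : ℂ := ∑ l, Y l z * (dzb l θ z * Ψ z) + ∑ l, ∑ i, B l i z *
      (dz i (dzb l θ) z * Ψ z + dzb l θ z * dz i Ψ z + dz i θ z * dzb l Ψ z)

theorem lin_mul (Y : Fin N → E N → ℂ) (B : Fin N → Fin N → E N → ℂ) {θ Ψ : E N → ℂ}
    (hθ : ContDiff ℝ ∞ θ) (hΨ : ContDiff ℝ ∞ Ψ) (z : E N) :
    lin Y B (fun l => dzb l fun w => θ w * Ψ w) z =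
      θ z * lin Y B (fun l => dzb l Ψ) z + rho Y B θ Ψ z := by
  simp only [lin, rho, (prod_d hθ hΨ _ _ z).2, fun l => (prod_d hθ hΨ l l z).1, mul_add,
    Finset.mul_sum, Finset.sum_add_distrib, mul_left_comm (θ z)]
  ring

theorem rho_sub (Y : Fin N → E N → ℂ) (B : Fin N → Fin N → E N → ℂ) {θ η : E N → ℂ}
    (Ψ : E N → ℂ) (hθ : ContDiff ℝ ∞ θ) (hη : ContDiff ℝ ∞ η) (z : E N) :
    rho Y B (fun w => θ w - η w) Ψ z = rho Y B θ Ψ z - rho Y B η Ψ z := by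
  have d : ∀ {g : E N → ℂ}, ContDiff ℝ ∞ g → ∀ y, DifferentiableAt ℝ g y := fun hg y =>
    hg.differentiable (by simp) y
  have h1 : ∀ l, dzb l (fun w => θ w - η w) = fun y => dzb l θ y - dzb l η y := fun l =>
    funext fun y => dzb_sub l (d hθ y) (d hη y)
  simp only [rho, h1, dz_sub _ (d hθ z) (d hη z),
    dz_sub _ (d (smooth_d hθ _).2 z) (d (smooth_d hη _).2 z), mul_add, sub_mul, mul_sub,
    Finset.sum_add_distrib, Finset.sum_sub_distrib]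
  ring

theorem cut_id {Y : Fin N → E N → ℂ} {B : Fin N → Fin N → E N → ℂ} {θ η Ψ : E N → ℂ}
    (hθ : ContDiff ℝ ∞ θ) (hη : ContDiff ℝ ∞ η) (hΨ : ContDiff ℝ ∞ Ψ)
    (h0 : ∫ z, lin Y B (fun l => dzb l fun w => (θ w - η w) * Ψ w) z = 0)
    (i1 : Integrable fun z => (θ z - η z) * lin Y B (fun l => dzb l Ψ) z)
    (i2 : Integrable (rho Y B θ Ψ)) (i3 : Integrable (rho Y B η Ψ)) :
    ∫ z, (θ z - η z) * lin Y B (fun l => dzb l Ψ) z =
      (∫ z, rho Y B η Ψ z) - ∫ z, rho Y B θ Ψ z := by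
  simp only [lin_mul Y B (hθ.sub hη) hΨ, rho_sub Y B Ψ hθ hη] at h0
  have i4 : Integrable fun z => rho Y B θ Ψ z - rho Y B η Ψ z := i2.sub i3
  rw [integral_add i1 i4, integral_sub i2 i3] at h0
  linear_combination h0

theorem rho_scale {κ K : ℝ → ℝ} (hκ : Kap κ) (hK : ∀ s, HasDerivAt K (κ s) s) {a b : ℤ}
    {Y : Fin N → E N → ℂ} {B : Fin N → Fin N → E N → ℂ} (hY : ∀ l, Hom (E0 N) a b (Y l))
    (hB : ∀ l i, Hom (E0 N) (a + 1) b (B l i)) (Ψ : E N → ℂ) {t : ℝ} (ht : 0 < t) {x : E N}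
    (hx : x ≠ 0) : rho Y B (kc K t⁻¹) Ψ ((t : ℂ) • x) =
      (t : ℂ) ^ (a + b - 1) * (lin Y B (rad κ) x * Ψ ((t : ℂ) • x)) + ∑ l, ∑ i,
        ((t : ℂ) ^ (a + b) * (B l i x * rad κ l x * dz i Ψ ((t : ℂ) • x)) +
          (t : ℂ) ^ (a + b) * (B l i x * conj (rad κ i x) * dzb l Ψ ((t : ℂ) • x))) := by
  have ht' : (t : ℂ) ≠ 0 := by exact_mod_cast ht.ne'
  have e0 : ((t⁻¹ : ℝ) : ℂ) • (t : ℂ) • x = x := by
    rw [smul_smul, ofReal_inv, inv_mul_cancel₀ ht', one_smul]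
  have e1 : ∀ l, dzb l (kc K t⁻¹) = fun z : E N => (t⁻¹ : ℝ) * rad κ l (((t⁻¹ : ℝ) : ℂ) • z) :=
    fun l => funext fun z => (cut_d hK _ l z).2
  have e2 : ∀ i, dz i (kc K t⁻¹) ((t : ℂ) • x) = (t⁻¹ : ℝ) * conj (rad κ i x) := fun i => by
    have := (cut_d hK t⁻¹ i ((t : ℂ) • x)).1
    rwa [e0] at this
  have e3 : ∀ l i, dz i (fun z : E N => (t⁻¹ : ℝ) * rad κ l (((t⁻¹ : ℝ) : ℂ) • z)) ((t : ℂ) • x) =
      (t⁻¹ : ℝ) * ((t⁻¹ : ℝ) * dz i (rad κ l) x) := fun l i => by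
    rw [dz_const_mul, (scale_d _ _ _ _).1, e0]
    exact (((rad_facts hκ l).1.differentiable (by simp)).comp
      (differentiable_id.const_smul ((t⁻¹ : ℝ) : ℂ))) _
  have e4 : ∀ l, Y l ((t : ℂ) • x) = (t : ℂ) ^ (a + b) * Y l x := fun l => by
    rw [hY l t ht' x hx, conj_ofReal, zpow_add₀ ht']
  have e5 : ∀ l i, B l i ((t : ℂ) • x) = (t : ℂ) ^ (a + b) * t * B l i x := fun l i => by
    rw [hB l i t ht' x hx, conj_ofReal, zpow_add₀ ht', zpow_add₀ ht', zpow_one]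
    ring
  simp only [rho, lin, e1, e2, e3, e4, e5, e0]
  simp only [zpow_sub_one₀ ht', ofReal_inv, add_mul, mul_add,
    Finset.sum_mul, Finset.mul_sum, add_assoc, ← Finset.sum_add_distrib]
  refine Finset.sum_congr rfl fun l _ => ?_
  congr 1
  · ring
  · refine Finset.sum_congr rfl fun i _ => ?_
    field_simp

theorem rho_int (L : Lv0) {κ K : ℝ → ℝ} (hκ : Kap κ) (hK : ∀ s, HasDerivAt K (κ s) s) {a b : ℤ}
    {Y : Fin N → E N → ℂ} {B : Fin N → Fin N → E N → ℂ} (hY : ∀ l, Hom (E0 N) a b (Y l))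
    (hB : ∀ l i, Hom (E0 N) (a + 1) b (B l i)) (hN : 1 ≤ N) {Ψ : E N → ℂ} {C : ℝ}
    (s0 : Shl (lin Y B (rad κ))) (s1 : ∀ l i, Shl fun x => B l i x * rad κ l x)
    (s2 : ∀ l i, Shl fun x => B l i x * conj (rad κ i x)) (d0 : Dec C Ψ)
    (d1 : ∀ i, Dec C (dz i Ψ)) (d2 : ∀ i, Dec C (dzb i Ψ)) {t : ℝ} (ht : 0 < t) :
    Integrable (rho Y B (kc K t⁻¹) Ψ) ∧ ∫ z, rho Y B (kc K t⁻¹) Ψ z =
      (t : ℂ) ^ (2 * N + (a + b - 1)) * (∫ x, lin Y B (rad κ) x * Ψ ((t : ℂ) • x)) + ∑ l, ∑ i,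
        ((t : ℂ) ^ (2 * N + (a + b)) * (∫ x, B l i x * rad κ l x * dz i Ψ ((t : ℂ) • x)) +
          (t : ℂ) ^ (2 * N + (a + b)) *
            ∫ x, B l i x * conj (rad κ i x) * dzb l Ψ ((t : ℂ) • x)) := by
  have : Nonempty (Fin N) := ⟨⟨0, hN⟩⟩
  have hae : ∀ᵐ y : E N, y ≠ 0 := Measure.ae_ne _ _
  have ht' : (t : ℂ) ≠ 0 := by exact_mod_cast ht.ne'
  have i0 := (s0.int d0 t).const_mul ((t : ℂ) ^ (a + b - 1))
  have i1 := fun l i => ((s1 l i).int (d1 i) t).const_mul ((t : ℂ) ^ (a + b))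
  have i2 := fun l i => ((s2 l i).int (d2 l) t).const_mul ((t : ℂ) ^ (a + b))
  have i3 := fun l => integrable_finsetSum Finset.univ fun i _ => (i1 l i).fun_add (i2 l i)
  have i4 := integrable_finsetSum Finset.univ fun l _ => i3 l
  have e := hae.mono fun x hx => (rho_scale hκ hK hY hB Ψ ht hx).symm
  have i5 : Integrable fun x => rho Y B (kc K t⁻¹) Ψ ((t : ℂ) • x) := (i0.fun_add i4).congr e
  have i6 := (L.t0.1 N (t : ℂ)⁻¹ (inv_ne_zero ht')).2.2.1 _ i5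
  simp only [smul_inv_smul₀ ht'] at i6
  refine ⟨i6, ?_⟩
  have a0 := (L.t0.1 N t ht').1 (rho Y B (kc K t⁻¹) Ψ)
  have a1 : ((‖(t : ℂ)‖ ^ (2 * N) : ℝ) : ℂ) = (t : ℂ) ^ (2 * N : ℤ) := by
    rw [Complex.norm_real, Real.norm_of_nonneg ht.le, ofReal_pow, ← zpow_natCast]
    push_cast
    rfl
  rw [a1, eq_inv_mul_iff_mul_eq₀ (zpow_ne_zero _ ht'), ← integral_congr_ae e,
    integral_add i0 i4, integral_finsetSum _ fun l _ => i3 l, integral_const_mul] at a0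
  rw [← a0, mul_add, ← mul_assoc, ← zpow_add₀ ht', Finset.mul_sum]
  congr 1
  refine Finset.sum_congr rfl fun l _ => ?_
  rw [integral_finsetSum _ fun i _ => (i1 l i).fun_add (i2 l i), Finset.mul_sum]
  refine Finset.sum_congr rfl fun i _ => ?_
  rw [integral_add (i1 l i) (i2 l i), integral_const_mul, integral_const_mul, zpow_add₀ ht' (2 * N)]
  ring

theorem oris (L : Lv0) : StmtORIs := by
  intro N hN a b Y B κ hκ hY hB h1 h2 hD hF Ψ C hΨ hC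
  have : Nonempty (Fin N) := ⟨⟨0, hN⟩⟩
  have hae : ∀ᵐ y : E N, y ≠ 0 := Measure.ae_ne _ _
  obtain ⟨K, c, hc, hK, hKd, hK1, hK4, hKb⟩ := prim hκ
  obtain ⟨T1, -, -, T4, -⟩ := L.t1 N (E0 N) isOpen_E0 (by simp)
  have d0 : Dec C Ψ := ⟨hΨ.continuous, fun y => (hC y).1⟩
  have d1 : ∀ i, Dec C (dz i Ψ) := fun i =>
    ⟨(smooth_d hΨ i).1.continuous, fun y => (norm_d Ψ i y).1.trans (hC y).2.1⟩
  have d2 : ∀ i, Dec C (dzb i Ψ) := fun i =>
    ⟨(smooth_d hΨ i).2.continuous, fun y => (norm_d Ψ i y).2.trans (hC y).2.1⟩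
  have d3 : ∀ l i, Dec C (dz i (dzb l Ψ)) := fun l i =>
    ⟨(smooth_d (smooth_d hΨ l).2 i).1.continuous,
      fun y => (norm_d _ i y).1.trans ((hC y).2.2 l)⟩
  obtain ⟨hAI, hA⟩ := lam_eq (Y := Y) (B := B) (g := fun l => dzb l Ψ)
    (fun l => (d2 l).int L ((L.t3.2 N).2.1 a b _ (hY l).1 (hY l).2 h1 (by omega)))
    fun l i => (d3 l i).int L ((L.t3.2 N).2.1 (a + 1) b _ (hB l i).1 (hB l i).2 (by omega)
      (by omega))
  have r0 := fun l => shl_mul L (hY l).1 (rad_facts hκ l).1.continuous (rad_facts hκ l).2.1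
  have r1 := fun l i => shl_mul L (hB l i).1 (smooth_d (rad_facts hκ l).1 i).1.continuous
    ((rad_facts hκ l).2.2 i)
  obtain ⟨hSI, hS⟩ := lam_eq (Y := Y) (B := B) (g := rad κ) (fun l => (r0 l).1)
    fun l i => (r1 l i).1
  have s0 : Shl (lin Y B (rad κ)) := ⟨hSI, fun x hx => by
    by_contra h
    refine hx ?_
    rw [lin, Finset.sum_eq_zero, Finset.sum_eq_zero, add_zero]
    · exact fun l _ => Finset.sum_eq_zero fun i _ => by_contra fun h0 => h ((r1 l i).2 x h0)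
    · exact fun l _ => by_contra fun h0 => h ((r0 l).2 x h0)⟩
  have s1 := fun l i => shl_mul L (hB l i).1 (rad_facts hκ l).1.continuous (rad_facts hκ l).2.1
  have s2 : ∀ l i, Shl fun x => B l i x * conj (rad κ i x) := fun l i =>
    shl_mul L (hB l i).1 (continuous_conj.comp (rad_facts hκ i).1.continuous) fun x hx =>
      (rad_facts hκ i).2.1 x fun h => hx (by simp [h])
  have hR := fun t (ht : 0 < t) => rho_int L hκ hKd (fun l => (hY l).2) (fun l i => (hB l i).2) hN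
    s0 s1 s2 d0 d1 d2 ht
  have hout : Tendsto (fun r : ℝ => ∫ z, rho Y B (kc K r⁻¹) Ψ z) atTop (𝓝 0) := by
    have := (s0.out d0 hN (e := 2 * N + (a + b - 1)) (by omega)).add
      (tendsto_finsetSum Finset.univ fun l _ => tendsto_finsetSum Finset.univ fun i _ =>
        ((s1 l i).out (d1 i) hN (e := 2 * N + (a + b)) (by omega)).add
          ((s2 l i).out (d2 l) hN (e := 2 * N + (a + b)) (by omega)))
    simp only [add_zero, Finset.sum_const_zero] at this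
    exact this.congr' ((eventually_gt_atTop 0).mono fun r hr => (hR r hr).2.symm)
  have hin : Tendsto (fun r : ℝ => ∫ z, rho Y B (kc K r⁻¹⁻¹) Ψ z) atTop (𝓝 0) := by
    have := (s0.in0 d0 (hΨ.differentiable (by simp)) (fun y => (hC y).2.1.trans (div_le_self
      d0.nonneg (one_le_pow₀ (by linarith [norm_nonneg y])))) (hS.symm.trans hF)
        (e := 2 * N + (a + b - 1)) (by omega)).add
      (tendsto_finsetSum Finset.univ fun l _ => tendsto_finsetSum Finset.univ fun i _ =>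
        ((s1 l i).in1 (d1 i) (e := 2 * N + (a + b)) (by omega)).add
          ((s2 l i).in1 (d2 l) (e := 2 * N + (a + b)) (by omega)))
    simp only [add_zero, Finset.sum_const_zero] at this
    exact this.congr' ((eventually_gt_atTop 0).mono fun r hr => (hR _ (inv_pos.2 hr)).2.symm)
  set A : E N → ℂ := lin Y B fun l => dzb l Ψ with hA'
  have hks : ∀ s, ContDiff ℝ ∞ (kc K s : E N → ℂ) := fun s =>
    ofRealCLM.contDiff.comp (hK.comp ((contDiff_norm_sq ℝ).comp (contDiff_id.const_smul (s : ℂ))))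
  have hkn : ∀ s : ℝ, 0 < s → ∀ z : E N, kc K s z = K ((s * ‖z‖) ^ 2) := fun s hs z => by
    rw [kc, norm_smul, Complex.norm_real, Real.norm_of_nonneg hs.le]
  have hθb : ∀ (r : ℝ) z, ‖(kc K r⁻¹⁻¹ z - kc K r⁻¹ z) * A z‖ ≤ c * ‖A z‖ := by
    intro r z
    rw [norm_mul]
    refine mul_le_mul_of_nonneg_right ?_ (norm_nonneg _)
    simp only [kc]
    rw [← ofReal_sub, Complex.norm_real, Real.norm_eq_abs, abs_le]
    constructor <;> linarith [hKb (‖((r⁻¹⁻¹ : ℝ) : ℂ) • z‖ ^ 2), hKb (‖((r⁻¹ : ℝ) : ℂ) • z‖ ^ 2)]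
  have hθm : ∀ r : ℝ, AEStronglyMeasurable (fun z => (kc K r⁻¹⁻¹ z - kc K r⁻¹ z) * A z) volume :=
    fun r => ((hks _).continuous.sub (hks _).continuous).aestronglyMeasurable.mul
      hAI.aestronglyMeasurable
  have hid : ∀ r : ℝ, 1 ≤ r → ∫ z, (kc K r⁻¹⁻¹ z - kc K r⁻¹ z) * A z =
      (∫ z, rho Y B (kc K r⁻¹) Ψ z) - ∫ z, rho Y B (kc K r⁻¹⁻¹) Ψ z := by
    intro r hr
    have ht : 0 < r := by positivity
    have ht' : 0 < r⁻¹ := by positivity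
    have ht1 : r⁻¹ ≤ 1 := inv_le_one_of_one_le₀ hr
    have hrr : r * r⁻¹ = 1 := mul_inv_cancel₀ ht.ne'
    obtain ⟨a1, a2⟩ := shell_test (f := fun z => (kc K r⁻¹⁻¹ z - kc K r⁻¹ z) * Ψ z) (b := 2 * r)
      ht' fun z hz => by
        by_contra h
        rw [not_and_or, not_le, not_le] at h
        apply hz
        have hz0 := norm_nonneg z
        rw [inv_inv, hkn r ht, hkn _ ht']
        rcases h with h | h
        · rw [hK1, hK1, sub_self, zero_mul] <;> refine pow_le_one₀ (by positivity) ?_ <;> nlinarith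
        · have b1 : 2 ≤ r * ‖z‖ := by nlinarith
          have b2 : 2 ≤ r⁻¹ * ‖z‖ := by nlinarith
          rw [hK4, hK4, sub_self, zero_mul] <;> nlinarith
    have hθ := (hks r⁻¹⁻¹).sub (hks r⁻¹)
    have hT : Test (E0 N) fun z => (kc K r⁻¹⁻¹ z - kc K r⁻¹ z) * Ψ z := ⟨hθ.mul hΨ, a1, a2⟩
    have g1 := fun l => ((T4 _ hT).2.2.1 l).2
    have g2 := fun l i => ((T4 _ (g1 l)).2.2.1 i).1
    have a3 := (lam_eq (Y := Y) (B := B)
      (fun l => ((T1 _ (hY l).1).2.2.1 _ (g1 l).1.continuous (g1 l).2.1 (g1 l).2.2).1)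
      fun l i => ((T1 _ (hB l i).1).2.2.1 _ (g2 l i).1.continuous (g2 l i).2.1
        (g2 l i).2.2).1).2.symm.trans (hD _ hT)
    have hθI : Integrable fun z => (kc K r⁻¹⁻¹ z - kc K r⁻¹ z) * A z :=
      (hAI.norm.const_mul c).mono' (hθm r) (Eventually.of_forall (hθb r))
    exact cut_id (hks _) (hks _) hΨ a3 hθI (hR _ ht').1 (hR _ ht).1
  have hl1 : Tendsto (fun r : ℝ => ∫ z, (kc K r⁻¹⁻¹ z - kc K r⁻¹ z) * A z) atTop
      (𝓝 (∫ z, c * A z)) := by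
    refine tendsto_integral_filter_of_dominated_convergence (fun z => c * ‖A z‖)
      (Eventually.of_forall hθm) (Eventually.of_forall fun r => Eventually.of_forall (hθb r))
      (hAI.norm.const_mul c) (hae.mono fun z hz => ?_)
    have hz0 := norm_pos_iff.2 hz
    refine tendsto_const_nhds.congr' ?_
    filter_upwards [eventually_ge_atTop ‖z‖, eventually_ge_atTop (2 / ‖z‖)] with r b1 b2
    have hr : 0 < r := hz0.trans_le b1
    rw [div_le_iff₀ hz0] at b2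
    rw [inv_inv, hkn r hr, hkn _ (inv_pos.2 hr), hK4, hK1, ofReal_zero, sub_zero]
    · exact pow_le_one₀ (by positivity) (by rw [inv_mul_le_iff₀ hr]; linarith)
    · nlinarith
  have hl2 : Tendsto (fun r : ℝ => ∫ z, (kc K r⁻¹⁻¹ z - kc K r⁻¹ z) * A z) atTop (𝓝 0) := by
    have := hout.sub hin
    rw [sub_zero] at this
    exact this.congr' ((eventually_ge_atTop 1).mono fun r hr => (hid r hr).symm)
  have := tendsto_nhds_unique hl1 hl2
  rw [integral_const_mul, mul_eq_zero] at this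
  exact hA.trans (this.resolve_left (by exact_mod_cast hc.ne'))

end Pool.Agent.MP_fcd29e_an.H52
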